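import Mathlib

/-!
# Products of Boolean algebras (Sikorski)

Definitions: Boolean `m`-algebras, `m`-homomorphisms, `(m, 0)`-products and `(m, n)`-products of a family
of Boolean algebras, their order, and minimal products.
-/

set_option autoImplicit false

namespace Pool.Agent.K9h35.BP

open Cardinal

/-- A Boolean `m`-algebra: all sets of at most `m` elements have joins and meets. -/
def IsMAlgebra (m : Cardinal.{0}) (B : Type) [BooleanAlgebra B] : Prop :=
  ∀ S : Set B, #S ≤ m → (∃ x, IsLUB S x) ∧ ∃ x, IsGLB S x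

/-- An `m`-homomorphism: a homomorphism of Boolean algebras which preserves all the joins and meets of at
most `m` elements that exist. -/
structure IsMHom (m : Cardinal.{0}) {A B : Type} [BooleanAlgebra A] [BooleanAlgebra B] (h : A → B) :
    Prop where
  map_sup : ∀ a b, h (a ⊔ b) = h a ⊔ h b
  map_compl : ∀ a, h aᶜ = (h a)ᶜ
  map_isLUB : ∀ (S : Set A) (x : A), #S ≤ m → IsLUB S x → IsLUB (h '' S) (h x)
  map_isGLB : ∀ (S : Set A) (x : A), #S ≤ m → IsGLB S x → IsGLB (h '' S) (h x)

/-- An `m`-subalgebra: closed under complements and under joins and meets of at most `m` elements. -/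
def IsMSubalgebra (m : Cardinal.{0}) {B : Type} [BooleanAlgebra B] (S : Set B) : Prop :=
  (∀ x ∈ S, xᶜ ∈ S) ∧ ∀ U ⊆ S, #U ≤ m → ∀ x, (IsLUB U x ∨ IsGLB U x) → x ∈ S

/-- The meets `⋀_{t ∈ T'} i_t (c_t)` with nonzero `c_t` exist and are nonzero. -/
def IndependentOn {T : Type} {A : T → Type} [∀ t, BooleanAlgebra (A t)] {B : Type} [BooleanAlgebra B]
    (i : ∀ t, A t → B) (T' : Set T) : Prop :=
  ∀ c : ∀ t, A t, (∀ t ∈ T', c t ≠ ⊥) → ∃ x, IsGLB ((fun t => i t (c t)) '' T') x ∧ x ≠ ⊥

/-- The `(m, 0)`-products of a family of Boolean algebras `A t`: a Boolean `m`-algebra `B` with injective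
`m`-homomorphisms `i t : A t → B` whose images are independent and generate `B`. -/
structure Product (m : Cardinal.{0}) {T : Type} (A : T → Type) [∀ t, BooleanAlgebra (A t)] where
  /-- The algebra. -/
  B : Type
  [inst : BooleanAlgebra B]
  /-- The embeddings. -/
  i : ∀ t, A t → B
  isMAlgebra : IsMAlgebra m B
  isMHom : ∀ t, IsMHom m (i t)
  injective : ∀ t, Function.Injective (i t)
  independent : ∀ T' : Set T, T'.Finite → IndependentOn i T'
  generates : ∀ S : Set B, IsMSubalgebra m S → (∀ t a, i t a ∈ S) → S = Set.univ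

attribute [instance] Product.inst

variable {m : Cardinal.{0}} {T : Type} {A : T → Type} [∀ t, BooleanAlgebra (A t)]

/-- The `(m, n)`-products: the images of the `A t` are `n`-independent. -/
def Product.InP (P : Product m A) (n : Cardinal.{0}) : Prop :=
  ∀ T' : Set T, #T' ≤ n → IndependentOn P.i T'

/-- The order of products: `P ≤ Q` if there is an `m`-homomorphism from the algebra of `Q` to the algebra
of `P` which maps the embeddings of `Q` to those of `P`. -/
def Product.Le (P Q : Product m A) : Prop :=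
  ∃ h : Q.B → P.B, IsMHom m h ∧ ∀ t a, h (Q.i t a) = P.i t a

/-- A minimal `(m, n)`-product: each nonzero element lies above a nonzero meet of at most `n` elements
`i t (c t)` with different `t`. -/
def Product.IsMinimal (P : Product m A) (n : Cardinal.{0}) : Prop :=
  P.InP n ∧ ∀ x : P.B, x ≠ ⊥ → ∃ T' : Set T, #T' ≤ n ∧ ∃ (c : ∀ t, A t) (y : P.B),
    IsGLB ((fun t => P.i t (c t)) '' T') y ∧ y ≠ ⊥ ∧ y ≤ x

end Pool.Agent.K9h35.BP
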