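import Pool.Agent.K9h35.BP.Span

/-!
# Two products of two Cantor algebras without a common lower bound
-/

set_option autoImplicit false

namespace Pool.Agent.K9h35.BP

open TopologicalSpace Set
open scoped Cardinal

/-- The Cantor space. -/
abbrev K : Type := ℕ → Bool

theorem zeroDim_K : ZeroDim K := by
  intro U x hU hx
  obtain ⟨V, hV, hxV, hVU⟩ := compact_exists_isClopen_in_isOpen hU hx
  exact ⟨⟨V, hV⟩, hxV, hVU⟩

theorem top_ne_bot_clopens {X : Type} [TopologicalSpace X] [h : Nonempty X] :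
    (⊤ : Clopens X) ≠ ⊥ := by
  intro h0
  obtain ⟨x⟩ := h
  have : x ∈ (⊤ : Clopens X) := mem_univ x
  rw [h0] at this
  exact this

theorem exists_mem {X : Type} [TopologicalSpace X] {a : Clopens X} (h : a ≠ ⊥) : ∃ x, x ∈ a := by
  by_contra hn
  push Not at hn
  apply h
  apply le_bot_iff.1
  intro x hx
  exact absurd hx (hn x)

theorem ne_bot_of_mem {X : Type} [TopologicalSpace X] {a : Clopens X} {x : X} (h : x ∈ a) : a ≠ ⊥ := by
  rintro rfl
  exact h

/-- The clopen set of the sequences with `x k = true`. -/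
def bit (k : ℕ) : Clopens K :=
  ⟨{x | x k = true}, (isClopen_discrete {true}).preimage (continuous_apply k)⟩

theorem mem_bit (k : ℕ) (x : K) : x ∈ bit k ↔ x k = true := Iff.rfl

/-- The element that the `k`-th coordinates agree, of a product of two copies of the Cantor algebra. -/
def Product.e {m : Cardinal.{0}} (P : Product m (fun _ : Bool => Clopens K)) (k : ℕ) : P.B :=
  (P.i false (bit k) ⊓ P.i true (bit k)) ⊔ ((P.i false (bit k))ᶜ ⊓ (P.i true (bit k))ᶜ)

theorem map_inf_of {m : Cardinal.{0}} {A B : Type} [BooleanAlgebra A] [BooleanAlgebra B] {h : A → B}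
    (hh : IsMHom m h) (a b : A) : h (a ⊓ b) = h a ⊓ h b := by
  have h1 : a ⊓ b = (aᶜ ⊔ bᶜ)ᶜ := by rw [compl_sup, compl_compl, compl_compl]
  rw [h1, hh.map_compl, hh.map_sup, hh.map_compl, hh.map_compl, compl_sup, compl_compl, compl_compl]

theorem map_top_of {m : Cardinal.{0}} {A B : Type} [BooleanAlgebra A] [BooleanAlgebra B] {h : A → B}
    (hh : IsMHom m h) : h ⊤ = ⊤ := by
  have h1 : (⊤ : A) = ⊤ ⊔ ⊤ᶜ := by rw [compl_top, sup_bot_eq]
  rw [h1, hh.map_sup, hh.map_compl, sup_compl_eq_top]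

theorem map_bot_of {m : Cardinal.{0}} {A B : Type} [BooleanAlgebra A] [BooleanAlgebra B] {h : A → B}
    (hh : IsMHom m h) : h ⊥ = ⊥ := by
  rw [← compl_top, hh.map_compl, map_top_of hh, compl_top]

theorem map_e {m : Cardinal.{0}} {P L : Product m (fun _ : Bool => Clopens K)} {h : P.B → L.B}
    (hh : IsMHom m h) (hi : ∀ t a, h (P.i t a) = L.i t a) (k : ℕ) : h (P.e k) = L.e k := by
  simp only [Product.e, hh.map_sup, map_inf_of hh, hh.map_compl, hi]

/-- Two products such that in one of them `⋀_{k ≥ N} e_k = ⊥` for all `N`, and in the other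
`⋁_N ⋀_{k ≥ N} e_k = ⊤`, have no common lower bound. -/
theorem no_lower_bound {m : Cardinal.{0}} (hm : ℵ₀ ≤ m)
    (M Q : Product m (fun _ : Bool => Clopens K))
    (hM : ∀ N, IsGLB {x | ∃ k ≥ N, x = M.e k} ⊥)
    (g : ℕ → Q.B) (hQ : ∀ N, IsGLB {x | ∃ k ≥ N, x = Q.e k} (g N)) (hQ' : IsLUB (range g) ⊤)
    (L : Product m (fun _ : Bool => Clopens K)) : ¬ (L.Le M ∧ L.Le Q) := by
  rintro ⟨⟨u, hu, hui⟩, ⟨v, hv, hvi⟩⟩
  have hcard : ∀ (P : Product m (fun _ : Bool => Clopens K)) (N : ℕ),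
      #({x | ∃ k ≥ N, x = P.e k} : Set P.B) ≤ m := by
    intro P N
    refine le_trans ?_ hm
    rw [Cardinal.mk_le_aleph0_iff]
    refine Set.Countable.to_subtype ?_
    refine (countable_range P.e).mono ?_
    rintro _ ⟨k, _, rfl⟩
    exact ⟨k, rfl⟩
  have himg : ∀ (P : Product m (fun _ : Bool => Clopens K)) (h : P.B → L.B) (_ : IsMHom m h)
      (_ : ∀ t a, h (P.i t a) = L.i t a) (N : ℕ),
      h '' {x | ∃ k ≥ N, x = P.e k} = {x | ∃ k ≥ N, x = L.e k} := by
    intro P h hh hi N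
    ext x
    constructor
    · rintro ⟨_, ⟨k, hk, rfl⟩, rfl⟩
      exact ⟨k, hk, map_e hh hi k⟩
    · rintro ⟨k, hk, rfl⟩
      exact ⟨P.e k, ⟨k, hk, rfl⟩, map_e hh hi k⟩
  have h1 : ∀ N, IsGLB {x | ∃ k ≥ N, x = L.e k} (⊥ : L.B) := by
    intro N
    have h2 := hu.map_isGLB _ _ (hcard M N) (hM N)
    rwa [himg M u hu hui, map_bot_of hu] at h2
  have h3 : ∀ N, v (g N) = ⊥ := by
    intro N
    have h4 := hv.map_isGLB _ _ (hcard Q N) (hQ N)
    rw [himg Q v hv hvi] at h4
    exact h4.unique (h1 N)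
  have h5 : IsLUB (v '' range g) (v ⊤) := by
    refine hv.map_isLUB _ _ ?_ hQ'
    refine le_trans ?_ hm
    rw [Cardinal.mk_le_aleph0_iff]
    exact Set.Countable.to_subtype (countable_range g)
  rw [map_top_of hv] at h5
  have h6 : (⊤ : L.B) ≤ ⊥ := by
    apply h5.2
    rintro _ ⟨_, ⟨N, rfl⟩, rfl⟩
    exact (h3 N).le
  have h7 : L.i false ⊤ = L.i false ⊥ := by
    have : ∀ x y : L.B, x = y := fun x y =>
      le_antisymm ((le_top.trans h6).trans bot_le) ((le_top.trans h6).trans bot_le)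
    exact this _ _
  exact top_ne_bot_clopens (L.injective false h7)

/-! ### The elements `e k` in the algebra of a span -/

theorem clop_inf {Y : Type} [TopologicalSpace Y] (U V : Clopens Y) :
    clop (U ⊓ V) = clop U ⊓ clop V := by
  apply Heyting.Regular.coe_injective
  rfl

theorem clop_sup {Y : Type} [TopologicalSpace Y] (U V : Clopens Y) :
    clop (U ⊔ V) = clop U ⊔ clop V := by
  apply le_antisymm
  · rw [le_iff, st_clop]
    rintro y (hy | hy)
    · have h : clop U ≤ clop U ⊔ clop V := le_sup_left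
      exact h hy
    · have h : clop V ≤ clop U ⊔ clop V := le_sup_right
      exact h hy
  · apply sup_le
    · intro y hy
      exact Or.inl hy
    · intro y hy
      exact Or.inr hy

variable {Y : Type} [TopologicalSpace Y] (σ : Span K Y)

theorem mem_e {m : Cardinal.{0}} (hg : ∀ S : Set (RO Y), IsMSubalgebra m S → (∀ t a, σ.i t a ∈ S) →
    S = univ) (k : ℕ) (y : Y) :
    y ∈ st ((σ.product m zeroDim_K hg).e k) ↔ σ.f false y k = σ.f true y k := by
  have h1 : (σ.product m zeroDim_K hg).e k =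
      clop ((⟨σ.f false ⁻¹' (bit k : Set K), (bit k).isClopen.preimage (σ.cont false)⟩ ⊓
        ⟨σ.f true ⁻¹' (bit k : Set K), (bit k).isClopen.preimage (σ.cont true)⟩) ⊔
        ((⟨σ.f false ⁻¹' (bit k : Set K), (bit k).isClopen.preimage (σ.cont false)⟩ᶜ ⊓
        ⟨σ.f true ⁻¹' (bit k : Set K), (bit k).isClopen.preimage (σ.cont true)⟩ᶜ))) := by
    rw [clop_sup, clop_inf, clop_inf, clop_compl, clop_compl]
    rfl
  rw [h1, st_clop]
  have h2 : ∀ t, (σ.f t y ∈ (bit k : Set K)) ↔ σ.f t y k = true := fun t => Iff.rfl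
  simp only [Clopens.coe_sup, Clopens.coe_inf, Clopens.coe_compl, mem_union, mem_inter_iff, mem_compl_iff,
    Clopens.coe_mk, mem_preimage, h2]
  cases σ.f false y k <;> cases σ.f true y k <;> simp

end Pool.Agent.K9h35.BP
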