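import Pool.Agent.K9h35.BP.Ex

/-!
# The minimal product and the twisted product
-/

set_option autoImplicit false

namespace Pool.Agent.K9h35.BP

open TopologicalSpace Set
open scoped Cardinal

/-! ### The minimal product -/

/-- The two projections of `K × K`. -/
def spanM : Span K (K × K) where
  f := fun t y => if t = true then y.2 else y.1
  cont := by
    intro t
    cases t
    · simpa using continuous_fst
    · simpa using continuous_snd
  isOpenMap := by
    intro t
    cases t
    · simpa using isOpenMap_fst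
    · simpa using isOpenMap_snd
  meets := by
    intro a ha
    obtain ⟨x, hx⟩ := exists_mem (ha false)
    obtain ⟨y, hy⟩ := exists_mem (ha true)
    refine ⟨(x, y), ?_⟩
    intro t
    cases t
    · simpa using hx
    · simpa using hy

theorem spanM_false (y : K × K) : spanM.f false y = y.1 := rfl

theorem spanM_true (y : K × K) : spanM.f true y = y.2 := rfl

/-- Rectangles. -/
def rect (a b : Clopens K) : RO (K × K) := spanM.i false a ⊓ spanM.i true b

theorem mem_rect (a b : Clopens K) (y : K × K) : y ∈ st (rect a b) ↔ y.1 ∈ a ∧ y.2 ∈ b := Iff.rfl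

theorem exists_rect (w : RO (K × K)) (y : K × K) (hy : y ∈ st w) :
    ∃ a b, y ∈ st (rect a b) ∧ rect a b ≤ w := by
  obtain ⟨U, V, hU, hV, hyU, hyV, hUV⟩ := isOpen_prod_iff.1 (isOpen_st w) y.1 y.2 hy
  obtain ⟨a, ha, haU⟩ := zeroDim_K U y.1 hU hyU
  obtain ⟨b, hb, hbV⟩ := zeroDim_K V y.2 hV hyV
  refine ⟨a, b, ⟨ha, hb⟩, ?_⟩
  intro z hz
  exact hUV ⟨haU hz.1, hbV hz.2⟩

theorem generates_of {m : Cardinal.{0}} (hm : ℵ₀ ≤ m) {Y ι : Type} [TopologicalSpace Y] [Countable ι]
    (r : ι → RO Y) (hr : ∀ (w : RO Y) (y : Y), y ∈ st w → ∃ j, y ∈ st (r j) ∧ r j ≤ w)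
    (S : Set (RO Y)) (hS : IsMSubalgebra m S) (hrS : ∀ j, r j ∈ S) : S = univ := by
  apply eq_univ_of_forall
  intro w
  have h1 : IsLUB {x | ∃ j, r j ≤ w ∧ x = r j} w := by
    constructor
    · rintro _ ⟨j, hj, rfl⟩
      exact hj
    · intro u hu y hy
      obtain ⟨j, hyj, hj⟩ := hr w y hy
      exact hu ⟨j, hj, rfl⟩ hyj
  refine hS.2 {x | ∃ j, r j ≤ w ∧ x = r j} ?_ ?_ w (Or.inl h1)
  · rintro _ ⟨j, _, rfl⟩
    exact hrS j
  · refine le_trans ?_ hm
    rw [Cardinal.mk_le_aleph0_iff]
    refine Set.Countable.to_subtype ?_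
    refine (countable_range r).mono ?_
    rintro _ ⟨j, _, rfl⟩
    exact ⟨j, rfl⟩

theorem mk_pair_le {m : Cardinal.{0}} (hm : ℵ₀ ≤ m) {B : Type} (x y : B) :
    #({x, y} : Set B) ≤ m := by
  refine le_trans ?_ hm
  rw [Cardinal.mk_le_aleph0_iff]
  exact (Set.toFinite _).countable.to_subtype

theorem inf_mem {m : Cardinal.{0}} (hm : ℵ₀ ≤ m) {B : Type} [BooleanAlgebra B] {S : Set B}
    (hS : IsMSubalgebra m S) {x y : B} (hx : x ∈ S) (hy : y ∈ S) : x ⊓ y ∈ S := by
  refine hS.2 {x, y} ?_ (mk_pair_le hm x y) _ (Or.inr isGLB_pair)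
  rintro z (rfl | rfl)
  · exact hx
  · exact hy

theorem sup_mem {m : Cardinal.{0}} (hm : ℵ₀ ≤ m) {B : Type} [BooleanAlgebra B] {S : Set B}
    (hS : IsMSubalgebra m S) {x y : B} (hx : x ∈ S) (hy : y ∈ S) : x ⊔ y ∈ S := by
  refine hS.2 {x, y} ?_ (mk_pair_le hm x y) _ (Or.inl isLUB_pair)
  rintro z (rfl | rfl)
  · exact hx
  · exact hy

instance countable_clopens_K : Countable (Clopens K) :=
  TopologicalSpace.Clopens.countable_iff_secondCountable.2 inferInstance

theorem generates_M {m : Cardinal.{0}} (hm : ℵ₀ ≤ m) (S : Set (RO (K × K))) (hS : IsMSubalgebra m S)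
    (hi : ∀ t a, spanM.i t a ∈ S) : S = univ := by
  refine generates_of hm (fun p : Clopens K × Clopens K => rect p.1 p.2) ?_ S hS ?_
  · intro w y hy
    obtain ⟨a, b, h1, h2⟩ := exists_rect w y hy
    exact ⟨(a, b), h1, h2⟩
  · intro p
    exact inf_mem hm hS (hi false p.1) (hi true p.2)

/-- The minimal product of two copies of the Cantor algebra. -/
def prodM {m : Cardinal.{0}} (hm : ℵ₀ ≤ m) : Product m (fun _ : Bool => Clopens K) :=
  spanM.product m zeroDim_K (generates_M hm)

theorem isMinimal_M {m n : Cardinal.{0}} (hm : ℵ₀ ≤ m) (hn : ℵ₀ ≤ n) : (prodM hm).IsMinimal n := by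
  refine ⟨spanM.inP m n zeroDim_K (generates_M hm), ?_⟩
  intro x hx
  obtain ⟨y, hy⟩ := nonempty_of_ne_bot (Y := K × K) x hx
  obtain ⟨a, b, h1, h2⟩ := exists_rect x y hy
  refine ⟨univ, ?_, fun t => if t = true then b else a, rect a b, ?_, ?_, h2⟩
  · refine le_trans ?_ hn
    rw [Cardinal.mk_le_aleph0_iff]
    exact (Set.toFinite _).countable.to_subtype
  · have h3 : (fun t => (prodM hm).i t (if t = true then b else a)) '' univ =
        {(prodM hm).i false a, (prodM hm).i true b} := by
      ext z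
      constructor
      · rintro ⟨t, _, rfl⟩
        cases t
        · exact Or.inl rfl
        · exact Or.inr rfl
      · rintro (rfl | rfl)
        · exact ⟨false, mem_univ _, rfl⟩
        · exact ⟨true, mem_univ _, rfl⟩
    rw [h3]
    exact isGLB_pair
  · intro h0
    have h4 : y ∈ st (⊥ : RO (K × K)) := by
      have h5 : rect a b = (⊥ : RO (K × K)) := h0
      rw [← h5]
      exact h1
    exact h4

theorem isGLB_M {m : Cardinal.{0}} (hm : ℵ₀ ≤ m) (N : ℕ) :
    IsGLB {x | ∃ k ≥ N, x = (prodM hm).e k} ⊥ := by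
  constructor
  · intro x _
    exact bot_le
  · intro w hw
    by_contra hn
    have hw' : w ≠ ⊥ := fun h => hn h.le
    obtain ⟨y, hy⟩ := nonempty_of_ne_bot (Y := K × K) w hw'
    obtain ⟨U, V, hU, hV, hyU, hyV, hUV⟩ := isOpen_prod_iff.1 (isOpen_st (w : RO (K × K))) y.1 y.2 hy
    obtain ⟨I, u, hu, hI⟩ := isOpen_pi_iff.1 hV y.2 hyV
    -- change one large coordinate of `y.2`
    obtain ⟨k, hk1, hk2⟩ : ∃ k ≥ N, k ∉ I := by
      obtain ⟨k, hk⟩ := Infinite.exists_notMem_finset (I ∪ Finset.range N)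
      rw [Finset.mem_union, not_or, Finset.mem_range, not_lt] at hk
      exact ⟨k, hk.2, hk.1⟩
    have hmem : ∀ z : K, (∀ j, j ≠ k → z j = y.2 j) → (y.1, z) ∈ st (w : RO (K × K)) := by
      intro z hz
      refine hUV ⟨hyU, hI ?_⟩
      intro j hj
      have hjk : j ≠ k := fun h => hk2 (h ▸ hj)
      have hzj : z j ∈ u j := by
        rw [hz j hjk]
        exact (hu j hj).2
      exact hzj
    have hw2 : (w : RO (K × K)) ≤ (prodM hm).e k := hw ⟨k, hk1, rfl⟩
    have h1 := (mem_e spanM (generates_M hm) k (y.1, Function.update y.2 k (!(y.1 k)))).1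
      (hw2 (hmem _ (fun j hj => Function.update_of_ne hj _ _)))
    rw [spanM_false, spanM_true] at h1
    simp at h1

/-! ### The twisted product -/

/-- The twist of `ℕ × K`: add the digits of `q` to `x`. -/
def twist (y : ℕ × K) : ℕ × K := (y.1, fun k => xor (y.2 k) (y.1.testBit k))

theorem twist_twist (y : ℕ × K) : twist (twist y) = y := by
  obtain ⟨q, x⟩ := y
  simp [twist]

theorem continuous_twist : Continuous twist := by
  rw [continuous_prod_of_discrete_left]
  intro q
  refine Continuous.prodMk continuous_const ?_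
  refine continuous_pi ?_
  intro k
  have h1 : Continuous (fun b : Bool => xor b (q.testBit k)) := continuous_of_discreteTopology
  exact h1.comp (continuous_apply k)

/-- The twist as a homeomorphism. -/
def twistHomeo : (ℕ × K) ≃ₜ (ℕ × K) where
  toFun := twist
  invFun := twist
  left_inv := twist_twist
  right_inv := twist_twist
  continuous_toFun := continuous_twist
  continuous_invFun := continuous_twist

/-- The two maps `(q, x) ↦ x + q` and `(q, x) ↦ x`. -/
def spanQ : Span K (ℕ × K) where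
  f := fun t y => if t = true then y.2 else (twist y).2
  cont := by
    intro t
    cases t
    · exact continuous_snd.comp continuous_twist
    · exact continuous_snd
  isOpenMap := by
    intro t
    cases t
    · exact isOpenMap_snd.comp twistHomeo.isOpenMap
    · exact isOpenMap_snd
  meets := by
    intro a ha
    obtain ⟨x, hx⟩ := exists_mem (ha false)
    obtain ⟨y, hy⟩ := exists_mem (ha true)
    obtain ⟨I, u, hu, hI⟩ := isOpen_pi_iff.1 (a true).isOpen y hy
    obtain ⟨n, hn⟩ : ∃ n, ∀ i ∈ I, i < n :=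
      ⟨I.sup id + 1, fun i hi => Nat.lt_succ_of_le (Finset.le_sup (f := id) hi)⟩
    set q : ℕ := Nat.ofBits (fun i : Fin n => xor (x i) (y i)) with hq
    refine ⟨(q, fun k => xor (x k) (q.testBit k)), ?_⟩
    intro t
    cases t
    · have h1 : (fun k => xor (xor (x k) (q.testBit k)) (q.testBit k)) = x := by
        funext k
        simp
      simpa [twist, h1] using hx
    · simp only [if_true]
      apply hI
      intro i hi
      have h1 : q.testBit i = xor (x i) (y i) := by
        rw [hq, Nat.testBit_ofBits_lt _ i (hn i hi)]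
      have h2 : xor (x i) (q.testBit i) = y i := by
        rw [h1]
        simp
      have h3 : xor (x i) (q.testBit i) ∈ u i := by
        rw [h2]
        exact (hu i hi).2
      exact h3

theorem spanQ_false (y : ℕ × K) : spanQ.f false y = (twist y).2 := rfl

theorem spanQ_true (y : ℕ × K) : spanQ.f true y = y.2 := rfl

theorem agree_iff (y : ℕ × K) (k : ℕ) :
    spanQ.f false y k = spanQ.f true y k ↔ y.1.testBit k = false := by
  rw [spanQ_false, spanQ_true]
  simp only [twist]
  cases y.2 k <;> cases y.1.testBit k <;> simp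

/-- The clopen set `{q} × K`. -/
def sheet (q : ℕ) : RO (ℕ × K) :=
  clop ⟨{y | y.1 = q}, (isClopen_discrete {q}).preimage continuous_fst⟩

theorem mem_sheet (q : ℕ) (y : ℕ × K) : y ∈ st (sheet q) ↔ y.1 = q := Iff.rfl

/-- The clopen set where the `k`-th coordinates agree. -/
def agree (k : ℕ) : RO (ℕ × K) :=
  (spanQ.i false (bit k) ⊓ spanQ.i true (bit k)) ⊔ ((spanQ.i false (bit k))ᶜ ⊓ (spanQ.i true (bit k))ᶜ)

theorem agree_eq (k : ℕ) : agree k = clop ⟨{y | y.1.testBit k = false}, by
    have h1 : {y : ℕ × K | y.1.testBit k = false} = Prod.fst ⁻¹' {q : ℕ | q.testBit k = false} := rfl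
    rw [h1]
    exact (isClopen_discrete _).preimage continuous_fst⟩ := by
  have h1 : agree k =
      clop ((⟨spanQ.f false ⁻¹' (bit k : Set K), (bit k).isClopen.preimage (spanQ.cont false)⟩ ⊓
        ⟨spanQ.f true ⁻¹' (bit k : Set K), (bit k).isClopen.preimage (spanQ.cont true)⟩) ⊔
        ((⟨spanQ.f false ⁻¹' (bit k : Set K), (bit k).isClopen.preimage (spanQ.cont false)⟩ᶜ ⊓
        ⟨spanQ.f true ⁻¹' (bit k : Set K), (bit k).isClopen.preimage (spanQ.cont true)⟩ᶜ))) := by
    rw [clop_sup, clop_inf, clop_inf, clop_compl, clop_compl]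
    rfl
  rw [h1]
  congr 1
  apply Clopens.ext
  ext y
  refine Iff.trans ?_ (agree_iff y k)
  have h2 : ∀ t, (spanQ.f t y ∈ (bit k : Set K)) ↔ spanQ.f t y k = true := fun t => Iff.rfl
  simp only [Clopens.coe_sup, Clopens.coe_inf, Clopens.coe_compl, mem_union, mem_inter_iff, mem_compl_iff,
    Clopens.coe_mk, mem_preimage, h2]
  cases spanQ.f false y k <;> cases spanQ.f true y k <;> simp

theorem mem_agree (k : ℕ) (y : ℕ × K) : y ∈ st (agree k) ↔ y.1.testBit k = false := by
  rw [agree_eq]
  exact Iff.rfl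

theorem mem_agree_compl (k : ℕ) (y : ℕ × K) : y ∈ st (agree k)ᶜ ↔ y.1.testBit k = true := by
  rw [agree_eq, ← clop_compl, st_clop, Clopens.coe_compl, mem_compl_iff]
  have h1 : (¬ y.1.testBit k = false) ↔ y.1.testBit k = true := by
    cases y.1.testBit k <;> simp
  exact h1

theorem generates_Q {m : Cardinal.{0}} (hm : ℵ₀ ≤ m) (S : Set (RO (ℕ × K))) (hS : IsMSubalgebra m S)
    (hi : ∀ t a, spanQ.i t a ∈ S) : S = univ := by
  have h1 : ∀ k, agree k ∈ S := fun k =>
    sup_mem hm hS (inf_mem hm hS (hi _ _) (hi _ _))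
      (inf_mem hm hS (hS.1 _ (hi _ _)) (hS.1 _ (hi _ _)))
  have h2 : ∀ q, sheet q ∈ S := by
    intro q
    set F : ℕ → RO (ℕ × K) := fun k => if q.testBit k = true then (agree k)ᶜ else agree k with hF
    have hFm : ∀ k y, y ∈ st (F k) ↔ y.1.testBit k = q.testBit k := by
      intro k y
      by_cases hk : q.testBit k = true
      · simp only [hF, hk, if_true]
        exact mem_agree_compl k y
      · simp only [hF, hk]
        have hk' : q.testBit k = false := by simpa using hk
        exact mem_agree k y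
    have h3 : IsGLB (range F) (sheet q) := by
      constructor
      · rintro _ ⟨k, rfl⟩ y hy
        have hy' : y.1 = q := hy
        exact (hFm k y).2 (by rw [hy'])
      · intro w hw y hy
        have h4 : y.1 = q := by
          apply Nat.eq_of_testBit_eq
          intro k
          exact (hFm k y).1 (hw ⟨k, rfl⟩ hy)
        exact h4
    refine hS.2 (range F) ?_ ?_ _ (Or.inr h3)
    · rintro _ ⟨k, rfl⟩
      simp only [hF]
      split_ifs
      · exact hS.1 _ (h1 k)
      · exact h1 k
    · refine le_trans ?_ hm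
      rw [Cardinal.mk_le_aleph0_iff]
      exact Set.Countable.to_subtype (countable_range F)
  refine generates_of hm (fun p : ℕ × Clopens K => sheet p.1 ⊓ spanQ.i true p.2) ?_ S hS ?_
  · intro w y hy
    have h5 : IsOpen {x : K | (y.1, x) ∈ st w} :=
      (isOpen_st w).preimage (Continuous.prodMk continuous_const continuous_id)
    obtain ⟨a, hya, ha⟩ := zeroDim_K _ y.2 h5 hy
    refine ⟨(y.1, a), ⟨rfl, hya⟩, ?_⟩
    rintro z ⟨hz1, hz2⟩
    have hz1' : z.1 = y.1 := hz1
    have h6 := ha hz2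
    have h7 : (z.1, z.2) ∈ st w := by
      rw [hz1']
      exact h6
    exact h7
  · intro p
    exact inf_mem hm hS (h2 p.1) (hi true p.2)

/-- The twisted product of two copies of the Cantor algebra. -/
def prodQ {m : Cardinal.{0}} (hm : ℵ₀ ≤ m) : Product m (fun _ : Bool => Clopens K) :=
  spanQ.product m zeroDim_K (generates_Q hm)

theorem exists_g {m : Cardinal.{0}} (hm : ℵ₀ ≤ m) : ∃ g : ℕ → (prodQ hm).B,
    (∀ N, IsGLB {x | ∃ k ≥ N, x = (prodQ hm).e k} (g N)) ∧ IsLUB (range g) ⊤ := by
  have h1 : ∀ N, ∃ x : (prodQ hm).B, IsGLB {x | ∃ k ≥ N, x = (prodQ hm).e k} x := by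
    intro N
    exact exists_isGLB (Y := ℕ × K) {x | ∃ k ≥ N, x = (prodQ hm).e k}
  choose g hg using h1
  refine ⟨g, hg, fun x _ => le_top, ?_⟩
  intro u hu
  have h2 : ∀ y : ℕ × K, y ∈ st (u : RO (ℕ × K)) := by
    intro y
    have h3 : (sheet y.1 : RO (ℕ × K)) ≤ g y.1 := by
      apply (hg y.1).2
      rintro _ ⟨k, hk, rfl⟩ z hz
      refine (mem_e spanQ (generates_Q hm) k z).2 ((agree_iff z k).2 ?_)
      have hz' : z.1 = y.1 := hz
      rw [hz']
      apply Nat.testBit_lt_two_pow
      calc y.1 ≤ k := hk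
        _ < 2 ^ k := Nat.lt_two_pow_self
    exact hu ⟨y.1, rfl⟩ (h3 rfl)
  intro y _
  exact h2 y

/-- The minimal product and the twisted product have no common lower bound. -/
theorem no_common {m : Cardinal.{0}} (hm : ℵ₀ ≤ m) (L : Product m (fun _ : Bool => Clopens K)) :
    ¬ (L.Le (prodM hm) ∧ L.Le (prodQ hm)) := by
  obtain ⟨g, hg, hg'⟩ := exists_g hm
  exact no_lower_bound hm _ _ (isGLB_M hm) g hg hg' L

theorem le_refl_product {m : Cardinal.{0}} {T : Type} {A : T → Type} [∀ t, BooleanAlgebra (A t)]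
    (P : Product m A) : P.Le P := by
  refine ⟨id, ⟨fun _ _ => rfl, fun _ => rfl, ?_, ?_⟩, fun _ _ => rfl⟩
  · intro S x _ h
    rwa [image_id]
  · intro S x _ h
    rwa [image_id]

end Pool.Agent.K9h35.BP
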