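import Pool.Agent.K9h35.BP.Defs

/-!
# Regular open sets

The Boolean algebra of the regular open sets of a space `Y`, and the embeddings of the algebra of clopen
sets of `X` given by open continuous maps `Y → X`.
-/

set_option autoImplicit false

namespace Pool.Agent.K9h35.BP

open TopologicalSpace Set
open scoped Cardinal

/-- Regular open sets. -/
abbrev RO (Y : Type) [TopologicalSpace Y] : Type := Heyting.Regular (Opens Y)

variable {X Y : Type} [TopologicalSpace X] [TopologicalSpace Y]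

/-- The set of a regular open set. -/
def st (w : RO Y) : Set Y := ((w : Opens Y) : Set Y)

theorem isOpen_st (w : RO Y) : IsOpen (st w) := (w : Opens Y).isOpen

theorem le_iff (w v : RO Y) : w ≤ v ↔ st w ⊆ st v := Iff.rfl

theorem st_bot : st (⊥ : RO Y) = ∅ := rfl

theorem st_top : st (⊤ : RO Y) = univ := rfl

theorem st_inf (w v : RO Y) : st (w ⊓ v) = st w ∩ st v := rfl

theorem eq_bot_iff' (w : RO Y) : w = ⊥ ↔ st w = ∅ := by
  constructor
  · rintro rfl
    rfl
  · intro h
    apply le_bot_iff.1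
    rw [le_iff, h]
    exact empty_subset _

theorem nonempty_of_ne_bot (w : RO Y) (h : w ≠ ⊥) : (st w).Nonempty := by
  rw [nonempty_iff_ne_empty]
  intro h0
  exact h ((eq_bot_iff' w).2 h0)

theorem inf_compl_inf_self {B : Type} [BooleanAlgebra B] (a b : B) : a ⊓ bᶜ ⊓ b = ⊥ := by
  rw [inf_assoc, compl_inf_self, inf_bot_eq]

theorem exists_of_not_le {w v : RO Y} (h : ¬ w ≤ v) :
    ∃ N : RO Y, (st N).Nonempty ∧ st N ⊆ st w ∧ Disjoint (st N) (st v) := by
  refine ⟨w ⊓ vᶜ, ?_, inter_subset_left, ?_⟩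
  · rw [nonempty_iff_ne_empty, Ne, ← eq_bot_iff']
    intro h0
    apply h
    exact disjoint_compl_right_iff.1 (disjoint_iff.2 h0)
  · have h1 : st (w ⊓ vᶜ) ∩ st v = ∅ := by
      rw [← st_inf, ← eq_bot_iff']
      exact inf_compl_inf_self w v
    exact disjoint_iff_inter_eq_empty.2 h1

theorem exists_isLUB (S : Set (RO Y)) : ∃ x, IsLUB S x :=
  ⟨_, Heyting.Regular.gi.isLUB_of_u_image (isLUB_sSup _)⟩

theorem exists_isGLB (S : Set (RO Y)) : ∃ x, IsGLB S x :=
  ⟨_, Heyting.Regular.gi.isGLB_of_u_image (isGLB_sInf _)⟩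

theorem isMAlgebra_RO (m : Cardinal.{0}) : IsMAlgebra m (RO Y) :=
  fun S _ => ⟨exists_isLUB S, exists_isGLB S⟩

theorem isCompl_toOpens (U : Clopens Y) : IsCompl U.toOpens (Uᶜ).toOpens := by
  constructor
  · rw [disjoint_iff]
    ext y
    simp
  · rw [codisjoint_iff]
    ext y
    simp

theorem isRegular_toOpens (U : Clopens Y) : Heyting.IsRegular U.toOpens := by
  have h1 : (U.toOpens)ᶜ = (Uᶜ).toOpens := (isCompl_toOpens U).compl_eq
  have h2 : ((Uᶜ).toOpens)ᶜ = U.toOpens := by
    have := (isCompl_toOpens Uᶜ).compl_eq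
    rwa [compl_compl] at this
  unfold Heyting.IsRegular
  rw [h1, h2]

/-- A clopen set as a regular open set. -/
def clop (U : Clopens Y) : RO Y := ⟨U.toOpens, isRegular_toOpens U⟩

theorem st_clop (U : Clopens Y) : st (clop U) = (U : Set Y) := rfl

theorem clop_compl (U : Clopens Y) : clop Uᶜ = (clop U)ᶜ := by
  apply Heyting.Regular.coe_injective
  exact (isCompl_toOpens U).compl_eq.symm

/-- The preimage of a clopen set. -/
def pull (f : Y → X) (hf : Continuous f) (a : Clopens X) : RO Y :=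
  clop ⟨f ⁻¹' (a : Set X), a.isClopen.preimage hf⟩

theorem st_pull (f : Y → X) (hf : Continuous f) (a : Clopens X) :
    st (pull f hf a) = f ⁻¹' (a : Set X) := rfl

theorem pull_compl (f : Y → X) (hf : Continuous f) (a : Clopens X) :
    pull f hf aᶜ = (pull f hf a)ᶜ :=
  clop_compl (⟨f ⁻¹' (a : Set X), a.isClopen.preimage hf⟩ : Clopens Y)

/-- Each nonempty open set contains a nonempty clopen set. -/
def ZeroDim (X : Type) [TopologicalSpace X] : Prop :=
  ∀ (U : Set X) (x : X), IsOpen U → x ∈ U → ∃ a : Clopens X, x ∈ a ∧ (a : Set X) ⊆ U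

theorem pull_isLUB (hX : ZeroDim X) (f : Y → X) (hf : Continuous f) (ho : IsOpenMap f)
    (S : Set (Clopens X)) (x : Clopens X) (h : IsLUB S x) : IsLUB (pull f hf '' S) (pull f hf x) := by
  constructor
  · rintro _ ⟨s, hs, rfl⟩
    rw [le_iff, st_pull, st_pull]
    exact preimage_mono (h.1 hs)
  · intro w hw
    by_contra hn
    obtain ⟨N, ⟨y, hy⟩, hN1, hN2⟩ := exists_of_not_le hn
    obtain ⟨a, hya, ha⟩ := hX (f '' st N) (f y) (ho _ (isOpen_st N)) ⟨y, hy, rfl⟩
    have h1 : x \ a ∈ upperBounds S := by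
      intro s hs z hz
      refine ⟨h.1 hs hz, ?_⟩
      intro hza
      obtain ⟨y', hy', rfl⟩ := ha hza
      have h2 : y' ∈ st w := hw ⟨s, hs, rfl⟩ hz
      exact (disjoint_left.1 hN2) hy' h2
    have h3 : x ≤ x \ a := h.2 h1
    have h4 : f y ∈ x := hN1 hy
    exact (h3 h4).2 hya

theorem isGLB_of_isLUB_compl {B : Type} [BooleanAlgebra B] {S : Set B} {x : B}
    (h : IsLUB (compl '' S) xᶜ) : IsGLB S x := by
  constructor
  · intro s hs
    exact compl_le_compl_iff_le.1 (h.1 ⟨s, hs, rfl⟩)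
  · intro y hy
    apply compl_le_compl_iff_le.1
    apply h.2
    rintro _ ⟨s, hs, rfl⟩
    exact compl_le_compl_iff_le.2 (hy hs)

theorem isLUB_compl_of_isGLB {B : Type} [BooleanAlgebra B] {S : Set B} {x : B}
    (h : IsGLB S x) : IsLUB (compl '' S) xᶜ := by
  constructor
  · rintro _ ⟨s, hs, rfl⟩
    exact compl_le_compl_iff_le.2 (h.1 hs)
  · intro y hy
    have : yᶜ ≤ x := by
      apply h.2
      intro s hs
      have := hy ⟨s, hs, rfl⟩
      exact compl_le_of_compl_le this
    exact compl_le_of_compl_le this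

theorem isMHom_of {m : Cardinal.{0}} {A B : Type} [BooleanAlgebra A] [BooleanAlgebra B] (h : A → B)
    (hc : ∀ a, h aᶜ = (h a)ᶜ) (hl : ∀ (S : Set A) (x : A), IsLUB S x → IsLUB (h '' S) (h x)) :
    IsMHom m h := by
  refine ⟨?_, hc, fun S x _ => hl S x, ?_⟩
  · intro a b
    have h1 := hl {a, b} (a ⊔ b) isLUB_pair
    rw [image_pair] at h1
    exact h1.unique isLUB_pair
  · intro S x _ hx
    apply isGLB_of_isLUB_compl
    have h1 := hl _ _ (isLUB_compl_of_isGLB hx)
    rw [hc, image_image] at h1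
    rw [image_image]
    simpa only [hc] using h1

theorem isMHom_pull {m : Cardinal.{0}} (hX : ZeroDim X) (f : Y → X) (hf : Continuous f)
    (ho : IsOpenMap f) : IsMHom m (pull f hf) :=
  isMHom_of _ (pull_compl f hf) (pull_isLUB hX f hf ho)

end Pool.Agent.K9h35.BP
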