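import Pool.Agent.K9h35.BP.RO

/-!
# Products of two algebras of clopen sets given by a pair of open maps
-/

set_option autoImplicit false

namespace Pool.Agent.K9h35.BP

open TopologicalSpace Set
open scoped Cardinal

variable {X Y : Type} [TopologicalSpace X] [TopologicalSpace Y]

/-- A pair of open continuous maps `Y → X` such that the preimages of nonempty clopen sets meet. -/
structure Span (X Y : Type) [TopologicalSpace X] [TopologicalSpace Y] where
  f : Bool → Y → X
  cont : ∀ t, Continuous (f t)
  isOpenMap : ∀ t, IsOpenMap (f t)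
  meets : ∀ a : Bool → Clopens X, (∀ t, a t ≠ ⊥) → ∃ y, ∀ t, f t y ∈ a t

namespace Span

variable (σ : Span X Y)

/-- The embeddings. -/
def i (t : Bool) (a : Clopens X) : RO Y := pull (σ.f t) (σ.cont t) a

theorem mem_i (t : Bool) (a : Clopens X) (y : Y) : y ∈ st (σ.i t a) ↔ σ.f t y ∈ a := Iff.rfl

theorem isMHom_i {m : Cardinal.{0}} (hX : ZeroDim X) (t : Bool) : IsMHom m (σ.i t) :=
  isMHom_pull hX (σ.f t) (σ.cont t) (σ.isOpenMap t)

theorem injective_i [Nonempty X] (t : Bool) : Function.Injective (σ.i t) := by
  have key : ∀ a b : Clopens X, σ.i t a = σ.i t b → a ≤ b := by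
    intro a b h
    by_contra hn
    have h1 : a \ b ≠ ⊥ := fun h0 => hn (sdiff_eq_bot_iff.1 h0)
    have htop : (⊤ : Clopens X) ≠ ⊥ := by
      intro h0
      obtain ⟨x⟩ := ‹Nonempty X›
      have : x ∈ (⊤ : Clopens X) := mem_univ x
      rw [h0] at this
      exact this
    obtain ⟨y, hy⟩ := σ.meets (fun s => if s = t then a \ b else ⊤) (by
      intro s
      by_cases hs : s = t
      · simp only [hs, if_true]
        exact h1
      · simp only [hs, if_false]
        exact htop)
    have h2 := hy t
    simp only [if_true] at h2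
    have h3 : y ∈ st (σ.i t a) := h2.1
    rw [h] at h3
    exact h2.2 h3
  intro a b h
  exact le_antisymm (key a b h) (key b a h.symm)

theorem independentOn [Nonempty X] (T' : Set Bool) :
    IndependentOn (A := fun _ => Clopens X) σ.i T' := by
  intro c hc
  obtain ⟨x, hx⟩ := exists_isGLB ((fun t => σ.i t (c t)) '' T')
  refine ⟨x, hx, ?_⟩
  have htop : (⊤ : Clopens X) ≠ ⊥ := by
    intro h0
    obtain ⟨x⟩ := ‹Nonempty X›
    have : x ∈ (⊤ : Clopens X) := mem_univ x
    rw [h0] at this
    exact this
  classical
  set d : Bool → Clopens X := fun t => if t ∈ T' then c t else ⊤ with hd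
  obtain ⟨y, hy⟩ := σ.meets d (by
    intro t
    by_cases ht : t ∈ T'
    · simp only [hd, ht, if_true]
      exact hc t ht
    · simp only [hd, ht, if_false]
      exact htop)
  have h1 : σ.i false (d false) ⊓ σ.i true (d true) ≤ x := by
    apply hx.2
    rintro _ ⟨t, ht, rfl⟩
    cases t with
    | false =>
      refine inf_le_left.trans (le_of_eq ?_)
      simp only [hd, ht, if_true]
    | true =>
      refine inf_le_right.trans (le_of_eq ?_)
      simp only [hd, ht, if_true]
  intro h0
  rw [h0] at h1
  have h2 : y ∈ st (σ.i false (d false) ⊓ σ.i true (d true)) := ⟨hy false, hy true⟩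
  exact h1 h2

/-- The product of two copies of the algebra of clopen sets of `X` given by a span. -/
def product (m : Cardinal.{0}) [Nonempty X] (hX : ZeroDim X)
    (hg : ∀ S : Set (RO Y), IsMSubalgebra m S → (∀ t a, σ.i t a ∈ S) → S = univ) :
    Product m (fun _ : Bool => Clopens X) where
  B := RO Y
  i := σ.i
  isMAlgebra := isMAlgebra_RO m
  isMHom := fun t => σ.isMHom_i hX t
  injective := fun t => σ.injective_i t
  independent := fun T' _ => σ.independentOn T'
  generates := hg

theorem inP (m n : Cardinal.{0}) [Nonempty X] (hX : ZeroDim X)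
    (hg : ∀ S : Set (RO Y), IsMSubalgebra m S → (∀ t a, σ.i t a ∈ S) → S = univ) :
    (σ.product m hX hg).InP n :=
  fun T' _ => σ.independentOn T'

end Span

end Pool.Agent.K9h35.BP
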